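import Pool.Agent.Helper42.KS.Goals

set_option autoImplicit false

namespace Pool.Agent.Helper42.KS.PkC3

open MeasureTheory Finset

theorem mink {ι X : Type*} (s : Finset ι) (F : Finset X) (f : ι → X → ℝ) (w : ι → ℝ)
    (hw : ∀ i ∈ s, 0 ≤ w i) (h : ∀ i ∈ s, ∑ x ∈ F, (f i x) ^ 2 ≤ (w i) ^ 2) :
    ∑ x ∈ F, (∑ i ∈ s, f i x) ^ 2 ≤ (∑ i ∈ s, w i) ^ 2 := by
  classical
  let v : ι → EuclideanSpace ℝ F := fun i => WithLp.toLp 2 (fun x => f i x.1)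
  have hn : ∀ i, ‖v i‖ ^ 2 = ∑ x ∈ F, (f i x) ^ 2 := by
    intro i
    rw [EuclideanSpace.norm_sq_eq]
    simp only [v, Real.norm_eq_abs, sq_abs]
    exact Finset.sum_coe_sort F (fun x => (f i x) ^ 2)
  have hn2 : ‖∑ i ∈ s, v i‖ ^ 2 = ∑ x ∈ F, (∑ i ∈ s, f i x) ^ 2 := by
    rw [EuclideanSpace.norm_sq_eq]
    rw [← Finset.sum_coe_sort F (fun x => (∑ i ∈ s, f i x) ^ 2)]
    refine Finset.sum_congr rfl fun x _ => ?_
    rw [Real.norm_eq_abs, sq_abs]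
    congr 1
    simp [v]
  rw [← hn2]
  have h1 : ‖∑ i ∈ s, v i‖ ≤ ∑ i ∈ s, w i := by
    refine (norm_sum_le _ _).trans (Finset.sum_le_sum fun i hi => ?_)
    have := h i hi
    rw [← hn i] at this
    exact abs_le_of_sq_le_sq' this (hw i hi) |>.2
  exact pow_le_pow_left₀ (norm_nonneg _) h1 2

theorem sumW (Q e : ℝ) (hQ : 1 ≤ Q) (he : e ≤ -2) (M : ℕ) :
    ∑ q ∈ Icc 1 M, (q : ℝ) * ((q : ℝ) ^ (e - 1) * (1 + Nq Q q) ^ e) ≤ 3 * Q ^ (e + 1) := by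
  classical
  have hQ0 : 0 < Q := by linarith
  have hterm1 : ∀ q ∈ (Icc 1 M).filter (fun q : ℕ => (q : ℝ) ≤ Q),
      (q : ℝ) * ((q : ℝ) ^ (e - 1) * (1 + Nq Q q) ^ e) ≤ Q ^ e := by
    intro q hq
    rw [mem_filter, mem_Icc] at hq
    have hq0 : (0 : ℝ) < q := by exact_mod_cast hq.1.1
    have hN : Nq Q q = Q / q := by simp [Nq, hq.2]
    rw [hN]
    have h1 : (q : ℝ) * (q : ℝ) ^ (e - 1) = (q : ℝ) ^ e := by
      rw [Real.rpow_sub_one hq0.ne']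
      field_simp
    rw [← mul_assoc, h1, ← Real.mul_rpow hq0.le (by positivity)]
    have h2 : (q : ℝ) * (1 + Q / q) = q + Q := by field_simp
    rw [h2]
    exact Real.rpow_le_rpow_of_nonpos hQ0 (by linarith) (by linarith)
  have hterm2 : ∀ q ∈ (Icc 1 M).filter (fun q : ℕ => ¬ (q : ℝ) ≤ Q),
      (q : ℝ) * ((q : ℝ) ^ (e - 1) * (1 + Nq Q q) ^ e) ≤ Q ^ (e + 2) * ((q : ℝ) ^ 2)⁻¹ := by
    intro q hq
    rw [mem_filter, mem_Icc] at hq
    have hq0 : (0 : ℝ) < q := by exact_mod_cast hq.1.1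
    have hN : Nq Q q = 0 := by simp [Nq, hq.2]
    rw [hN]
    have h1 : (q : ℝ) * (q : ℝ) ^ (e - 1) = (q : ℝ) ^ e := by
      rw [Real.rpow_sub_one hq0.ne']
      field_simp
    rw [← mul_assoc, h1, add_zero, Real.one_rpow, mul_one]
    have h2 : (q : ℝ) ^ e = (q : ℝ) ^ (e + 2) * ((q : ℝ) ^ 2)⁻¹ := by
      rw [Real.rpow_add hq0]
      norm_num
      field_simp
    rw [h2]
    refine mul_le_mul_of_nonneg_right ?_ (by positivity)
    exact Real.rpow_le_rpow_of_nonpos hQ0 (not_le.mp hq.2).le (by linarith)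
  rw [← Finset.sum_filter_add_sum_filter_not (Icc 1 M) (fun q : ℕ => (q : ℝ) ≤ Q)]
  have hA : ∑ q ∈ (Icc 1 M).filter (fun q : ℕ => (q : ℝ) ≤ Q),
      (q : ℝ) * ((q : ℝ) ^ (e - 1) * (1 + Nq Q q) ^ e) ≤ Q ^ (e + 1) := by
    refine (Finset.sum_le_sum hterm1).trans ?_
    rw [Finset.sum_const, nsmul_eq_mul]
    have hsub : (Icc 1 M).filter (fun q : ℕ => (q : ℝ) ≤ Q) ⊆ Icc 1 ⌊Q⌋₊ := by
      intro q hq
      rw [mem_filter, mem_Icc] at hq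
      exact mem_Icc.mpr ⟨hq.1.1, Nat.le_floor hq.2⟩
    have hc : (((Icc 1 M).filter (fun q : ℕ => (q : ℝ) ≤ Q)).card : ℝ) ≤ Q := by
      have := Finset.card_le_card hsub
      rw [Nat.card_Icc, Nat.add_sub_cancel] at this
      calc (((Icc 1 M).filter (fun q : ℕ => (q : ℝ) ≤ Q)).card : ℝ) ≤ (⌊Q⌋₊ : ℝ) := by
            exact_mod_cast this
        _ ≤ Q := Nat.floor_le hQ0.le
    calc _ ≤ Q * Q ^ e := mul_le_mul_of_nonneg_right hc (by positivity)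
      _ = Q ^ (e + 1) := by rw [Real.rpow_add_one hQ0.ne']; ring
  have hB : ∑ q ∈ (Icc 1 M).filter (fun q : ℕ => ¬ (q : ℝ) ≤ Q),
      (q : ℝ) * ((q : ℝ) ^ (e - 1) * (1 + Nq Q q) ^ e) ≤ 2 * Q ^ (e + 1) := by
    refine (Finset.sum_le_sum hterm2).trans ?_
    rw [← Finset.mul_sum]
    have hm : 1 ≤ ⌊Q⌋₊ := Nat.one_le_floor_iff _ |>.mpr hQ
    have hsub : (Icc 1 M).filter (fun q : ℕ => ¬ (q : ℝ) ≤ Q) ⊆ Ioc ⌊Q⌋₊ M := by
      intro q hq
      rw [mem_filter, mem_Icc] at hq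
      exact mem_Ioc.mpr ⟨(Nat.floor_lt hQ0.le).mpr (not_le.mp hq.2), hq.1.2⟩
    have h3 : ∑ q ∈ Ioc ⌊Q⌋₊ M, ((q : ℝ) ^ 2)⁻¹ ≤ (⌊Q⌋₊ : ℝ)⁻¹ := by
      rcases le_or_gt ⌊Q⌋₊ M with h | h
      · refine (sum_Ioc_inv_sq_le_sub (by omega) h).trans ?_
        have : (0 : ℝ) ≤ (M : ℝ)⁻¹ := by positivity
        linarith
      · rw [Finset.Ioc_eq_empty (by omega), Finset.sum_empty]
        positivity
    have h4 : (⌊Q⌋₊ : ℝ)⁻¹ ≤ 2 / Q := by
      have h5 : Q < ⌊Q⌋₊ + 1 := Nat.lt_floor_add_one Q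
      have h6 : (1 : ℝ) ≤ ⌊Q⌋₊ := by exact_mod_cast hm
      rw [inv_eq_one_div, div_le_div_iff₀ (by linarith) hQ0]
      linarith
    have h7 : ∑ q ∈ (Icc 1 M).filter (fun q : ℕ => ¬ (q : ℝ) ≤ Q), ((q : ℝ) ^ 2)⁻¹ ≤ 2 / Q :=
      ((Finset.sum_le_sum_of_subset_of_nonneg hsub fun _ _ _ => by positivity).trans h3).trans h4
    calc _ ≤ Q ^ (e + 2) * (2 / Q) := mul_le_mul_of_nonneg_left h7 (by positivity)
      _ = 2 * Q ^ (e + 1) := by
        rw [show e + 2 = e + 1 + 1 by ring, Real.rpow_add_one hQ0.ne']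
        field_simp
  linarith

theorem fib {X : Type*} (F' F : Finset X) (hF : F' ⊆ F) (j : X → ℕ) (J : ℕ) (P : ℕ → Prop)
    [DecidablePred P] (g : ℕ → X → ℝ) (hg : ∀ i x, 0 ≤ g i x) (hJ : ∀ x ∈ F', j x < J)
    (hP : ∀ x ∈ F', P (j x)) :
    ∑ x ∈ F', g (j x) x ≤ ∑ i ∈ (Finset.range J).filter P, ∑ x ∈ F, g i x := by
  rw [Finset.sum_comm]
  calc ∑ x ∈ F', g (j x) x ≤ ∑ x ∈ F', ∑ i ∈ (Finset.range J).filter P, g i x := by
        refine Finset.sum_le_sum fun x hx => ?_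
        exact Finset.single_le_sum (f := fun i => g i x) (fun i _ => hg i x)
          (mem_filter.mpr ⟨mem_range.mpr (hJ x hx), hP x hx⟩)
    _ ≤ _ := Finset.sum_le_sum_of_subset_of_nonneg hF fun x _ _ =>
        Finset.sum_nonneg fun i _ => hg i x

/-- the minor arc part -/
theorem imin (hM : G_MIN2) (k d : ℕ) (hk : 3 ≤ k) (hd : k * 2 ^ (k + 6) ≤ d) :
    ∃ C : ℝ, 0 ≤ C ∧ ∀ (Q : ℝ) (E F : Finset (Fin d → ℤ)) (j : (Fin d → ℤ) → ℕ), 1 ≤ Q →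
      (∀ x ∈ F, Q ≤ ((2 : ℝ) ^ (j x)) ^ (k / 2 ^ (k + 5) : ℝ)) →
      ∑ x ∈ F, ((∫ α in mnr k (2 ^ (j x)), ‖app (kerT k (2 ^ (j x)) α) E x‖) /
        ((2 : ℝ) ^ (j x)) ^ (d - k)) ^ 2 ≤ C * (Q ^ (2 - (d : ℝ) / k)) ^ 2 * E.card := by
  have hk0 : (0 : ℝ) < k := by exact_mod_cast (by omega : 0 < k)
  have hp6 : 1 ≤ 2 ^ (k + 6) := Nat.one_le_two_pow
  have hkd : k < d := by
    have : k * 2 ≤ k * 2 ^ (k + 6) := Nat.mul_le_mul_left _ (by
      calc 2 = 2 ^ 1 := by norm_num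
        _ ≤ 2 ^ (k + 6) := Nat.pow_le_pow_right (by norm_num) (by omega))
    omega
  obtain ⟨C, hC⟩ := hM k d (by omega) (by omega)
  refine ⟨2 * |C|, by positivity, ?_⟩
  intro Q E F j hQ hj
  classical
  let g : ℕ → (Fin d → ℤ) → ℝ := fun i x =>
    ((∫ α in mnr k (2 ^ i), ‖app (kerT k (2 ^ i) α) E x‖) / ((2 : ℝ) ^ i) ^ (d - k)) ^ 2
  have h1 := fib F F (le_refl _) j (F.sup j + 1)
    (fun i => Q ≤ ((2 : ℝ) ^ i) ^ (k / 2 ^ (k + 5) : ℝ)) g (fun i x => sq_nonneg _)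
    (fun x hx => Nat.lt_succ_of_le (Finset.le_sup hx)) hj
  refine h1.trans ?_
  have h2 : ∀ i ∈ (Finset.range (F.sup j + 1)).filter
      (fun i => Q ≤ ((2 : ℝ) ^ i) ^ (k / 2 ^ (k + 5) : ℝ)),
      ∑ x ∈ F, g i x ≤ |C| * (Q ^ (2 - (d : ℝ) / k)) ^ 2 * E.card * (1 / 2) ^ i := by
    intro i hi
    rw [mem_filter] at hi
    have hR : (0 : ℝ) < (2 : ℝ) ^ i := by positivity
    have hR1 : (1 : ℝ) ≤ (2 : ℝ) ^ i := one_le_pow₀ (by norm_num)
    have hCi := hC (2 ^ i) E F Nat.one_le_two_pow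
    push_cast at hCi
    have e1 : ∑ x ∈ F, g i x = (((2 : ℝ) ^ i) ^ (d - k))⁻¹ ^ 2 *
        ∑ x ∈ F, (∫ α in mnr k (2 ^ i), ‖app (kerT k (2 ^ i) α) E x‖) ^ 2 := by
      rw [Finset.mul_sum]
      refine Finset.sum_congr rfl fun x _ => ?_
      simp only [g]
      rw [div_pow, inv_pow, div_eq_inv_mul]
    rw [e1]
    have e2 : (((2 : ℝ) ^ i) ^ (d - k))⁻¹ ^ 2 = ((2 : ℝ) ^ i) ^ (-(2 * ((d : ℝ) - k))) := by
      rw [Real.rpow_neg hR.le, inv_pow]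
      congr 1
      rw [← pow_mul, ← Real.rpow_natCast]
      push_cast [Nat.cast_sub hkd.le]
      congr 1
      ring
    have e3 : ((2 : ℝ) ^ i) ^ (-(2 * ((d : ℝ) - k))) *
        ((2 : ℝ) ^ i) ^ (2 * (d : ℝ) * (1 - 1 / (2 : ℝ) ^ (k + 4))) ≤
        (Q ^ (2 - (d : ℝ) / k)) ^ 2 * (1 / 2) ^ i := by
      rw [← Real.rpow_add hR]
      have hp : (0 : ℝ) < 2 ^ (k + 4) := by positivity
      have hdR : (k : ℝ) * 2 ^ (k + 6) ≤ d := by exact_mod_cast hd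
      have e4 : (-(2 * ((d : ℝ) - k)) + 2 * (d : ℝ) * (1 - 1 / (2 : ℝ) ^ (k + 4))) =
          -(2 * d / 2 ^ (k + 4) - 2 * k - 1) + (-1) := by ring
      rw [e4, Real.rpow_add hR, Real.rpow_neg_one]
      have e5 : ((1 : ℝ) / 2) ^ i = ((2 : ℝ) ^ i)⁻¹ := by
        rw [one_div, inv_pow]
      rw [e5]
      refine mul_le_mul_of_nonneg_right ?_ (by positivity)
      have hc3 : (0 : ℝ) < k / 2 ^ (k + 5) := by positivity
      have e6 : ((2 : ℝ) ^ i) ^ (-(2 * (d : ℝ) / 2 ^ (k + 4) - 2 * k - 1)) =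
          (((2 : ℝ) ^ i) ^ (k / 2 ^ (k + 5) : ℝ)) ^
            (-((2 * (d : ℝ) / 2 ^ (k + 4) - 2 * k - 1) / (k / 2 ^ (k + 5)))) := by
        rw [← Real.rpow_mul hR.le]
        congr 1
        field_simp
      have e9 : (Q ^ (2 - (d : ℝ) / k)) ^ 2 = Q ^ ((2 - (d : ℝ) / k) * ((2 : ℕ) : ℝ)) := by
        rw [← Real.rpow_natCast, ← Real.rpow_mul (by linarith)]
      rw [e6, e9]
      have hge : (d : ℝ) / 2 ^ (k + 4) ≥ 4 * k := by
        rw [ge_iff_le, le_div_iff₀ hp]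
        calc (4 * (k : ℝ)) * 2 ^ (k + 4) = k * 2 ^ (k + 6) := by ring
          _ ≤ d := hdR
      have hk3 : (3 : ℝ) ≤ k := by exact_mod_cast hk
      have e8 : 2 * (d : ℝ) / 2 ^ (k + 4) = 2 * ((d : ℝ) / 2 ^ (k + 4)) := by ring
      have hpos : 0 ≤ 2 * (d : ℝ) / 2 ^ (k + 4) - 2 * k - 1 := by
        rw [e8]; linarith
      have e7 : -((2 * (d : ℝ) / 2 ^ (k + 4) - 2 * k - 1) / (k / 2 ^ (k + 5))) ≤
          (2 - (d : ℝ) / k) * ((2 : ℕ) : ℝ) := by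
        rw [neg_le, le_div_iff₀ hc3]
        have : -((2 - (d : ℝ) / k) * ((2 : ℕ) : ℝ)) * (k / 2 ^ (k + 5)) =
            (d : ℝ) / 2 ^ (k + 4) - 2 * k / 2 ^ (k + 4) := by
          have h2 : (2 : ℝ) ^ (k + 5) = 2 * 2 ^ (k + 4) := by ring
          rw [h2]
          push_cast
          field_simp
          ring
        rw [this, e8]
        have : 0 ≤ 2 * (k : ℝ) / 2 ^ (k + 4) := by positivity
        linarith
      calc (((2 : ℝ) ^ i) ^ (k / 2 ^ (k + 5) : ℝ)) ^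
            (-((2 * (d : ℝ) / 2 ^ (k + 4) - 2 * k - 1) / (k / 2 ^ (k + 5)))) ≤
            Q ^ (-((2 * (d : ℝ) / 2 ^ (k + 4) - 2 * k - 1) / (k / 2 ^ (k + 5)))) :=
            Real.rpow_le_rpow_of_nonpos (by linarith) hi.2
              (by rw [neg_nonpos]; exact div_nonneg hpos hc3.le)
        _ ≤ _ := Real.rpow_le_rpow_of_exponent_le hQ e7
    calc _ ≤ (((2 : ℝ) ^ i) ^ (d - k))⁻¹ ^ 2 *
          (|C| * ((2 : ℝ) ^ i) ^ (2 * (d : ℝ) * (1 - 1 / (2 : ℝ) ^ (k + 4))) * E.card) := by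
          refine mul_le_mul_of_nonneg_left (hCi.trans ?_) (by positivity)
          gcongr
          exact le_abs_self C
      _ = |C| * E.card * (((2 : ℝ) ^ i) ^ (-(2 * ((d : ℝ) - k))) *
            ((2 : ℝ) ^ i) ^ (2 * (d : ℝ) * (1 - 1 / (2 : ℝ) ^ (k + 4)))) := by
          rw [e2]; ring
      _ ≤ |C| * E.card * ((Q ^ (2 - (d : ℝ) / k)) ^ 2 * (1 / 2) ^ i) :=
          mul_le_mul_of_nonneg_left e3 (by positivity)
      _ = _ := by ring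
  refine (Finset.sum_le_sum h2).trans ?_
  rw [← Finset.mul_sum]
  have h3 : ∑ i ∈ (Finset.range (F.sup j + 1)).filter
      (fun i => Q ≤ ((2 : ℝ) ^ i) ^ (k / 2 ^ (k + 5) : ℝ)), ((1 : ℝ) / 2) ^ i ≤ 2 :=
    (Finset.sum_le_sum_of_subset_of_nonneg (Finset.filter_subset _ _)
      fun _ _ _ => by positivity).trans (sum_geometric_two_le _)
  calc _ ≤ |C| * (Q ^ (2 - (d : ℝ) / k)) ^ 2 * E.card * 2 :=
        mul_le_mul_of_nonneg_left h3 (by positivity)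
    _ = _ := by ring

/-- the high frequency term -/
noncomputable def Hh (k : ℕ) {d : ℕ} (Q : ℝ) (E : Finset (Fin d → ℤ)) (q : ℕ) (a : ℤ) (j : ℕ)
    (x : Fin d → ℤ) : ℝ :=
  ∫ B in {B : ℝ | Nq Q q < |B| ∧ |B| ≤ ((2 : ℝ) ^ j) ^ (1 / 16 : ℝ)},
    ‖app (Dk k a q (2 ^ j) B) E x‖

/-- the low frequency term -/
noncomputable def Pp (k : ℕ) {d : ℕ} (E : Finset (Fin d → ℤ)) (q : ℕ) (a : ℤ) (j : ℕ)
    (x : Fin d → ℤ) : ℝ :=
  ‖(((q * (2 ^ j / q) : ℕ) : ℂ) ^ d)⁻¹ * app (kerT k (q * (2 ^ j / q)) (a / q)) E x‖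

/-- the truncated singular integral -/
noncomputable def vq (k d : ℕ) (Q : ℝ) (q j : ℕ) : ℝ :=
  ∫ B in {B : ℝ | Nq Q q < |B| ∧ |B| ≤ ((2 : ℝ) ^ j) ^ (1 / 16 : ℝ)}, ‖VV k B 0‖ ^ d

theorem Nq_nonneg (Q : ℝ) (hQ : 0 ≤ Q) (q : ℕ) : 0 ≤ Nq Q q := by
  unfold Nq
  split_ifs
  · positivity
  · exact le_refl _

/-- the weight -/
noncomputable def Ww (e Q : ℝ) (q : ℕ) : ℝ := (q : ℝ) ^ (e - 1) * (1 + Nq Q q) ^ e

theorem Ww_nonneg (e Q : ℝ) (hQ : 0 ≤ Q) (q : ℕ) : 0 ≤ Ww e Q q := by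
  have := Nq_nonneg Q hQ q
  unfold Ww
  positivity

theorem W_sq (Q k d ε : ℝ) (q : ℕ) (hq : 1 ≤ q) (hQ : 0 ≤ Q) :
    (Ww (1 - d / k + d * ε) Q q) ^ 2 =
      (q : ℝ) ^ (-(2 * d / k) + 2 * d * ε) * (1 + Nq Q q) ^ (2 - 2 * d / k + 2 * d * ε) := by
  have hq0 : (0 : ℝ) < q := by exact_mod_cast hq
  have := Nq_nonneg Q hQ q
  unfold Ww
  rw [mul_pow, ← Real.rpow_natCast, ← Real.rpow_natCast ((1 + Nq Q q) ^ _), ← Real.rpow_mul hq0.le,
    ← Real.rpow_mul (by linarith)]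
  congr 2
  · push_cast; ring
  · push_cast; ring

theorem hbound (hH : G_HF) (k d : ℕ) (ε : ℝ) (hk : 3 ≤ k) (hd : 3 * k < d) (hε : 0 < ε)
    (hε2 : ε ≤ 1 / (2 * k)) :
    ∃ C : ℝ, 0 ≤ C ∧ ∀ (Q : ℝ) (q : ℕ) (a : ℤ) (E F : Finset (Fin d → ℤ))
      (j : (Fin d → ℤ) → ℕ), 0 ≤ Q → 1 ≤ q → IsCoprime a (q : ℤ) →
      ∑ x ∈ F, (if (q : ℝ) ≤ ((2 : ℝ) ^ (j x)) ^ (1 / 16 : ℝ) then Hh k Q E q a (j x) x else 0) ^ 2 ≤
        (C * Real.sqrt E.card * Ww (1 - d / k + d * ε) Q q) ^ 2 := by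
  obtain ⟨C, hC⟩ := hH k d ε hk hd hε hε2
  refine ⟨Real.sqrt |C|, Real.sqrt_nonneg _, ?_⟩
  intro Q q a E F j hQ hq ha
  classical
  rw [mul_pow, mul_pow, Real.sq_sqrt (abs_nonneg _), Real.sq_sqrt (Nat.cast_nonneg _),
    W_sq Q k d ε q hq hQ]
  have h0 := hC q (F.sup j + 1) a (Nq Q q) E F hq ha (Nq_nonneg Q hQ q)
  have h1 := fib (F.filter fun x => (q : ℝ) ≤ ((2 : ℝ) ^ (j x)) ^ (1 / 16 : ℝ)) F
    (Finset.filter_subset _ _) j (F.sup j + 1)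
    (fun j => (q : ℝ) ≤ ((2 : ℝ) ^ j) ^ (1 / 16 : ℝ)) (fun i x => (Hh k Q E q a i x) ^ 2)
    (fun i x => sq_nonneg _)
    (fun x hx => Nat.lt_succ_of_le (Finset.le_sup (Finset.mem_filter.mp hx).1))
    (fun x hx => (Finset.mem_filter.mp hx).2)
  have e1 : ∑ x ∈ F, (if (q : ℝ) ≤ ((2 : ℝ) ^ (j x)) ^ (1 / 16 : ℝ) then
      Hh k Q E q a (j x) x else 0) ^ 2 =
      ∑ x ∈ F.filter (fun x => (q : ℝ) ≤ ((2 : ℝ) ^ (j x)) ^ (1 / 16 : ℝ)),
        (Hh k Q E q a (j x) x) ^ 2 := by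
    rw [Finset.sum_filter]
    refine Finset.sum_congr rfl fun x _ => ?_
    split_ifs
    · rfl
    · norm_num
  rw [e1]
  refine (h1.trans h0).trans ?_
  have := Nq_nonneg Q hQ q
  have hpos : 0 ≤ (q : ℝ) ^ (-(2 * (d : ℝ) / k) + 2 * d * ε) *
      (1 + Nq Q q) ^ (2 - 2 * (d : ℝ) / k + 2 * d * ε) := by positivity
  calc _ ≤ |C| * ((q : ℝ) ^ (-(2 * (d : ℝ) / k) + 2 * d * ε) *
      (1 + Nq Q q) ^ (2 - 2 * (d : ℝ) / k + 2 * d * ε)) * E.card := by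
        gcongr
        exact le_abs_self C
    _ = _ := by ring

theorem pbound (hL : G_LF) (hW : G_LOW) (k d : ℕ) (ε : ℝ) (hk : 3 ≤ k) (hd : 3 * k < d)
    (hε : 0 < ε) :
    ∃ C : ℝ, 0 ≤ C ∧ ∀ (Q : ℝ) (q : ℕ) (a : ℤ) (E F : Finset (Fin d → ℤ))
      (j : (Fin d → ℤ) → ℕ), 0 ≤ Q → 1 ≤ q → IsCoprime a (q : ℤ) →
      ∑ x ∈ F, (if (q : ℝ) ≤ ((2 : ℝ) ^ (j x)) ^ (1 / 16 : ℝ) then
        vq k d Q q (j x) * Pp k E q a (j x) x else 0) ^ 2 ≤
        (C * Real.sqrt E.card * Ww (1 - d / k + d * ε) Q q) ^ 2 := by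
  obtain ⟨C, hC⟩ := hL k d ε hk (by omega) hε
  obtain ⟨C', hC'⟩ := hW k d (by omega) (by omega)
  refine ⟨Real.sqrt |C| * |C'|, by positivity, ?_⟩
  intro Q q a E F j hQ hq ha
  classical
  have hN := Nq_nonneg Q hQ q
  have hq0 : (0 : ℝ) < q := by exact_mod_cast hq
  have h0 := hC q a (fun x => if q ≤ 2 ^ (j x) then j x else q) E
    (F.filter fun x => (q : ℝ) ≤ ((2 : ℝ) ^ (j x)) ^ (1 / 16 : ℝ)) hq ha (by
      intro x
      split_ifs with h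
      · exact h
      · exact Nat.lt_two_pow_self.le)
  have e1 : ∑ x ∈ F, (if (q : ℝ) ≤ ((2 : ℝ) ^ (j x)) ^ (1 / 16 : ℝ) then
      vq k d Q q (j x) * Pp k E q a (j x) x else 0) ^ 2 =
      ∑ x ∈ F.filter (fun x => (q : ℝ) ≤ ((2 : ℝ) ^ (j x)) ^ (1 / 16 : ℝ)),
        (vq k d Q q (j x)) ^ 2 * (Pp k E q a (j x) x) ^ 2 := by
    rw [Finset.sum_filter]
    refine Finset.sum_congr rfl fun x _ => ?_
    split_ifs
    · ring
    · norm_num
  rw [e1]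
  have h2 : ∀ j : ℕ, (vq k d Q q j) ^ 2 ≤ (|C'| * (1 + Nq Q q) ^ (1 - (d : ℝ) / k)) ^ 2 := by
    intro j
    have h3 : vq k d Q q j ≤ |C'| * (1 + Nq Q q) ^ (1 - (d : ℝ) / k) := by
      refine (hC' (Nq Q q) (((2 : ℝ) ^ j) ^ (1 / 16 : ℝ)) hN).trans ?_
      gcongr
      exact le_abs_self C'
    have h4 : 0 ≤ vq k d Q q j := by
      unfold vq
      exact integral_nonneg fun B => by positivity
    exact pow_le_pow_left₀ h4 h3 2
  have h5 : ∑ x ∈ F.filter (fun x => (q : ℝ) ≤ ((2 : ℝ) ^ (j x)) ^ (1 / 16 : ℝ)),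
        (Pp k E q a (j x) x) ^ 2 ≤ |C| * (q : ℝ) ^ (-(2 * (d : ℝ) / k) + 2 * d * ε) * E.card := by
    have h6 : ∑ x ∈ F.filter (fun x => (q : ℝ) ≤ ((2 : ℝ) ^ (j x)) ^ (1 / 16 : ℝ)),
        (Pp k E q a (j x) x) ^ 2 = ∑ x ∈ F.filter
        (fun x => (q : ℝ) ≤ ((2 : ℝ) ^ (j x)) ^ (1 / 16 : ℝ)),
        (Pp k E q a (if q ≤ 2 ^ (j x) then j x else q) x) ^ 2 := by
      refine Finset.sum_congr rfl fun x hx => ?_
      rw [mem_filter] at hx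
      have h7 : q ≤ 2 ^ (j x) := by
        have h8 : ((2 : ℝ) ^ (j x)) ^ (1 / 16 : ℝ) ≤ (2 : ℝ) ^ (j x) := by
          conv_rhs => rw [← Real.rpow_one ((2 : ℝ) ^ (j x))]
          exact Real.rpow_le_rpow_of_exponent_le (one_le_pow₀ (by norm_num)) (by norm_num)
        have h9 := hx.2.trans h8
        exact_mod_cast h9
      rw [if_pos h7]
    rw [h6]
    refine h0.trans ?_
    gcongr
    exact le_abs_self C
  calc _ ≤ ∑ x ∈ F.filter (fun x => (q : ℝ) ≤ ((2 : ℝ) ^ (j x)) ^ (1 / 16 : ℝ)),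
        (|C'| * (1 + Nq Q q) ^ (1 - (d : ℝ) / k)) ^ 2 * (Pp k E q a (j x) x) ^ 2 :=
        Finset.sum_le_sum fun x _ => mul_le_mul_of_nonneg_right (h2 (j x)) (sq_nonneg _)
    _ = (|C'| * (1 + Nq Q q) ^ (1 - (d : ℝ) / k)) ^ 2 *
        ∑ x ∈ F.filter (fun x => (q : ℝ) ≤ ((2 : ℝ) ^ (j x)) ^ (1 / 16 : ℝ)),
        (Pp k E q a (j x) x) ^ 2 := by rw [Finset.mul_sum]
    _ ≤ (|C'| * (1 + Nq Q q) ^ (1 - (d : ℝ) / k)) ^ 2 *
        (|C| * (q : ℝ) ^ (-(2 * (d : ℝ) / k) + 2 * d * ε) * E.card) :=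
        mul_le_mul_of_nonneg_left h5 (sq_nonneg _)
    _ ≤ (|C'| * (1 + Nq Q q) ^ (1 - (d : ℝ) / k + d * ε)) ^ 2 *
        (|C| * (q : ℝ) ^ (-(2 * (d : ℝ) / k) + 2 * d * ε) * E.card) := by
        gcongr
        · linarith
        · have : 0 ≤ (d : ℝ) * ε := by positivity
          linarith
    _ = _ := by
        have s0 : (Real.sqrt |C| * |C'| * Real.sqrt E.card * Ww (1 - d / k + d * ε) Q q) ^ 2 =
            (Real.sqrt |C|) ^ 2 * |C'| ^ 2 * (Real.sqrt E.card) ^ 2 *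
              (Ww (1 - d / k + d * ε) Q q) ^ 2 := by ring
        rw [s0, Real.sq_sqrt (abs_nonneg _), Real.sq_sqrt (Nat.cast_nonneg _),
          W_sq Q k d ε q hq hQ, mul_pow |C'|]
        have : ((1 + Nq Q q) ^ (1 - (d : ℝ) / k + d * ε)) ^ 2 =
            (1 + Nq Q q) ^ (2 - 2 * (d : ℝ) / k + 2 * d * ε) := by
          rw [← Real.rpow_natCast, ← Real.rpow_mul (by linarith)]
          congr 1
          push_cast; ring
        rw [this]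
        ring

theorem f1 (hW : G_W11) (d : ℕ) :
    ∃ C : ℝ, 0 ≤ C ∧ ∀ (lam Q : ℝ) (E F : Finset (Fin d → ℤ)) (j : (Fin d → ℤ) → ℕ), 0 < lam →
      0 < Q →
      (∀ x ∈ F, lam / 2 ≤ 2 * Q ^ 2 *
        ((E.filter fun z => ∀ i, z i ≤ x i ∧ x i < z i + 2 ^ (j x)).card : ℝ) /
          ((2 : ℝ) ^ (j x)) ^ d) →
      (F.card : ℝ) * lam ≤ C * Q ^ 2 * E.card := by
  classical
  obtain ⟨C, hC⟩ := hW d
  refine ⟨8 * |C|, by positivity, ?_⟩
  intro lam Q E F j hlam hQ hF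
  let g : (Fin d → ℤ) → ℝ := fun z => if z ∈ E then 1 else 0
  have h0 := hC (lam / (8 * Q ^ 2)) E F g (by positivity)
    (fun z => by simp only [g]; split_ifs <;> norm_num)
    (fun z hz => by simp only [g]; rw [if_neg hz])
    (by
      intro x hx
      refine ⟨j x, ?_⟩
      have h1 := hF x hx
      have h2 : ((E.filter fun z => ∀ i, z i ≤ x i ∧ x i < z i + 2 ^ (j x)).card : ℝ) ≤
          ∑ t ∈ box d (2 ^ (j x)), g (x - t) := by
        have h3 : (E.filter fun z => ∀ i, z i ≤ x i ∧ x i < z i + 2 ^ (j x)).image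
            (fun z => x - z) ⊆ box d (2 ^ (j x)) := by
          intro t ht
          rw [mem_image] at ht
          obtain ⟨z, hz, rfl⟩ := ht
          rw [mem_filter] at hz
          unfold box
          rw [Fintype.mem_piFinset]
          intro i
          have := hz.2 i
          rw [mem_Ico]
          push_cast
          simp only [Pi.sub_apply]
          constructor
          · linarith
          · linarith
        calc ((E.filter fun z => ∀ i, z i ≤ x i ∧ x i < z i + 2 ^ (j x)).card : ℝ)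
            = ∑ z ∈ (E.filter fun z => ∀ i, z i ≤ x i ∧ x i < z i + 2 ^ (j x)), (1 : ℝ) := by
              rw [Finset.sum_const, nsmul_eq_mul, mul_one]
          _ = ∑ z ∈ (E.filter fun z => ∀ i, z i ≤ x i ∧ x i < z i + 2 ^ (j x)),
                g (x - (x - z)) := by
              refine Finset.sum_congr rfl fun z hz => ?_
              rw [sub_sub_cancel]
              simp only [g]
              rw [if_pos (mem_filter.mp hz).1]
          _ = ∑ t ∈ (E.filter fun z => ∀ i, z i ≤ x i ∧ x i < z i + 2 ^ (j x)).image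
                (fun z => x - z), g (x - t) := by
              rw [Finset.sum_image]
              intro a _ b _ hab
              exact sub_right_injective hab
          _ ≤ _ := Finset.sum_le_sum_of_subset_of_nonneg h3 fun t _ _ => by
              simp only [g]; split_ifs <;> norm_num
      refine lt_of_lt_of_le ?_ h2
      have hR : (0 : ℝ) < ((2 : ℝ) ^ (j x)) ^ d := by positivity
      rw [div_le_div_iff₀ (by norm_num) hR] at h1
      rw [div_mul_eq_mul_div, div_lt_iff₀ (by positivity), pow_mul]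
      have : 0 < lam * ((2 : ℝ) ^ (j x)) ^ d := by positivity
      nlinarith)
  have h1 : ∑ z ∈ E, g z = E.card := by
    rw [Finset.sum_congr rfl (g := fun _ => (1 : ℝ)) (fun z hz => by simp only [g]; rw [if_pos hz])]
    simp
  rw [h1, mul_div_assoc', div_le_iff₀ (by positivity)] at h0
  calc (F.card : ℝ) * lam ≤ C * E.card * (8 * Q ^ 2) := h0
    _ ≤ |C| * E.card * (8 * Q ^ 2) := by gcongr; exact le_abs_self C
    _ = _ := by ring

theorem dec (hD : G_DEC) (k d : ℕ) (hk : 3 ≤ k) (hkd : k < d) (Q lam : ℝ)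
    (E : Finset (Fin d → ℤ)) (x : Fin d → ℤ) (j : ℕ) (n : ℤ) (hj : 1 ≤ j) (hQ : 1 ≤ Q)
    (hQ2 : Q ≤ ((2 : ℝ) ^ j) ^ (1 / 16 : ℝ)) (hn : n < 2 ^ (j * k))
    (hl : lam * (2 : ℝ) ^ (j * (d - k)) < hits k E x n) :
    lam < 2 * Q ^ 2 * ((E.filter fun z => ∀ i, z i ≤ x i ∧ x i < z i + 2 ^ j).card : ℝ) /
          ((2 : ℝ) ^ j) ^ d +
        (∫ α in mnr k (2 ^ j), ‖app (kerT k (2 ^ j) α) E x‖) / ((2 : ℝ) ^ j) ^ (d - k) +
        ∑ q ∈ Icc 1 ⌊((2 : ℝ) ^ j) ^ (1 / 16 : ℝ)⌋₊,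
          ∑ a ∈ (Icc 1 q).filter (fun a => Nat.Coprime a q),
            (Hh k Q E q a j x + vq k d Q q j * Pp k E q a j x) := by
  have h := hD k d (2 ^ j) Q E x n hk hkd
    (by calc 2 = 2 ^ 1 := by norm_num
          _ ≤ 2 ^ j := Nat.pow_le_pow_right (by norm_num) hj) hQ
    (by simp only [Nat.cast_pow, Nat.cast_ofNat]; exact hQ2)
    (by simp only [Nat.cast_pow, Nat.cast_ofNat]; rw [← pow_mul]; exact hn)
  simp only [Nat.cast_pow, Nat.cast_ofNat] at h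
  refine lt_of_lt_of_le ?_ h
  rw [lt_div_iff₀ (by positivity), ← pow_mul]
  exact hl

theorem add3_sq (a b c : ℝ) : (a + b + c) ^ 2 ≤ 3 * (a ^ 2 + b ^ 2 + c ^ 2) := by
  nlinarith [sq_nonneg (a - b), sq_nonneg (b - c), sq_nonneg (a - c)]

theorem thm : G_DEC → G_HF → G_LF → G_LOW → G_MIN2 → G_W11 → G_C3 := by
  intro hD hH hL hLo hM hW11 k hk
  have hk0 : (0 : ℝ) < k := by exact_mod_cast (by omega : 0 < k)
  have hp4 : (0 : ℝ) < 2 ^ (k + 4) := by positivity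
  refine ⟨1 / 2 ^ (k + 4), by positivity, ?_, k * 2 ^ (k + 6), ?_⟩
  · rw [div_lt_one hp4]
    exact one_lt_pow₀ (by norm_num) (by omega)
  intro d hd ε hε
  classical
  have h64 : 64 ≤ 2 ^ (k + 6) := by
    calc 64 = 2 ^ 6 := by norm_num
      _ ≤ 2 ^ (k + 6) := Nat.pow_le_pow_right (by norm_num) (by omega)
  have hd64 : k * 64 ≤ d := (Nat.mul_le_mul_left _ h64).trans hd
  have hkd : k < d := by omega
  have hkdR : (k : ℝ) < d := by exact_mod_cast hkd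
  have hdk : (0 : ℝ) < d - k := by linarith
  have hd0 : (0 : ℝ) < d := by linarith
  have hd64R : (k : ℝ) * 64 ≤ d := by exact_mod_cast hd64
  obtain ⟨ε1, hε1, hε1a, hε1b⟩ : ∃ ε1 : ℝ, 0 < ε1 ∧ ε1 ≤ 1 / (2 * k) ∧
      k * d * ε1 / (d - k) ≤ ε := by
    refine ⟨min (1 / (2 * k)) (ε * (d - k) / (k * d)), by positivity, min_le_left _ _, ?_⟩
    rw [div_le_iff₀ hdk]
    calc (k : ℝ) * d * min (1 / (2 * (k : ℝ))) (ε * ((d : ℝ) - k) / (k * d)) ≤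
          k * d * (ε * (d - k) / (k * d)) :=
          mul_le_mul_of_nonneg_left (min_le_right _ _) (by positivity)
      _ = ε * (d - k) := by field_simp
  obtain ⟨CM, hCM0, hCM⟩ := imin hM k d hk hd
  obtain ⟨CH, hCH0, hCH⟩ := hbound hH k d ε1 hk (by omega) hε1 hε1a
  obtain ⟨CP, hCP0, hCP⟩ := pbound hL hLo k d ε1 hk (by omega) hε1
  obtain ⟨CW, hCW0, hCW⟩ := f1 hW11 d
  set CS : ℝ := 3 * (CM + (3 * CH) ^ 2 + (3 * CP) ^ 2) with hCS
  have hCS0 : 0 ≤ CS := by positivity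
  refine ⟨1 + CW + 4 * CS, ?_⟩
  intro lam E F hlam hlam1 hF
  choose! j n hj using hF
  set Q : ℝ := lam ^ (-((k : ℝ) / (2 * (d - k)))) with hQdef
  have hQ1 : 1 ≤ Q :=
    Real.one_le_rpow_of_pos_of_le_one_of_nonpos hlam hlam1 (by rw [neg_nonpos]; positivity)
  have hQ0 : 0 < Q := by linarith
  set e : ℝ := 1 - d / k + d * ε1 with he
  have he2 : e ≤ -2 := by
    have h1 : (d : ℝ) * ε1 ≤ d * (1 / (2 * k)) := mul_le_mul_of_nonneg_left hε1a hd0.le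
    have h2 : (d : ℝ) * (1 / (2 * k)) = (d / k) / 2 := by field_simp
    have h3 : 64 ≤ (d : ℝ) / k := by rw [le_div_iff₀ hk0]; linarith
    rw [he]; linarith
  have hpow : ∀ x ∈ F, Q ≤ ((2 : ℝ) ^ (j x)) ^ (k / 2 ^ (k + 5) : ℝ) := by
    intro x hx
    have h1 := (hj x hx).2.1
    have h2 : (0 : ℝ) < (2 : ℝ) ^ (j x * (d - k)) := by positivity
    have h3 := Real.rpow_le_rpow_of_nonpos (Real.rpow_pos_of_pos h2 _) h1
      (show -((k : ℝ) / (2 * (d - k))) ≤ 0 by rw [neg_nonpos]; positivity)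
    refine h3.trans (le_of_eq ?_)
    rw [← Real.rpow_mul h2.le, pow_mul, ← Real.rpow_natCast ((2 : ℝ) ^ (j x)) (d - k),
      ← Real.rpow_mul (by positivity)]
    congr 1
    push_cast [Nat.cast_sub hkd.le]
    have : (2 : ℝ) ^ (k + 5) = 2 * 2 ^ (k + 4) := by ring
    rw [this]
    field_simp
  have hpow2 : ∀ x ∈ F, Q ≤ ((2 : ℝ) ^ (j x)) ^ (1 / 16 : ℝ) := by
    intro x hx
    refine (hpow x hx).trans (Real.rpow_le_rpow_of_exponent_le (one_le_pow₀ (by norm_num)) ?_)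
    rw [div_le_div_iff₀ (by positivity) (by norm_num)]
    have h1 : k * 16 ≤ 2 ^ (k + 5) := by
      have : k < 2 ^ k := Nat.lt_two_pow_self
      calc k * 16 ≤ 2 ^ k * 16 := Nat.mul_le_mul_right _ this.le
        _ ≤ 2 ^ k * 32 := Nat.mul_le_mul_left _ (by norm_num)
        _ = 2 ^ (k + 5) := by ring
    have h2 : ((k * 16 : ℕ) : ℝ) ≤ ((2 ^ (k + 5) : ℕ) : ℝ) := by exact_mod_cast h1
    push_cast at h2
    linarith
  -- the parts
  let I1 : (Fin d → ℤ) → ℝ := fun x => 2 * Q ^ 2 *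
    ((E.filter fun z => ∀ i, z i ≤ x i ∧ x i < z i + 2 ^ (j x)).card : ℝ) /
      ((2 : ℝ) ^ (j x)) ^ d
  let Im : (Fin d → ℤ) → ℝ := fun x =>
    (∫ α in mnr k (2 ^ (j x)), ‖app (kerT k (2 ^ (j x)) α) E x‖) / ((2 : ℝ) ^ (j x)) ^ (d - k)
  set F0 := F.filter (fun x => j x = 0) with hF0
  set Fp := F.filter (fun x => ¬ j x = 0) with hFp
  set F1 := Fp.filter (fun x => lam / 2 ≤ I1 x) with hF1
  set F2 := Fp.filter (fun x => ¬ lam / 2 ≤ I1 x) with hF2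
  have hcard : (F.card : ℝ) = F0.card + F1.card + F2.card := by
    have h1 : F0.card + Fp.card = F.card := Finset.card_filter_add_card_filter_not _
    have h2 : F1.card + F2.card = Fp.card := Finset.card_filter_add_card_filter_not _
    rw [← h1, ← h2]
    push_cast
    ring
  set p : ℝ := -((d : ℝ) / ((d : ℝ) - k)) - ε with hp
  have hp0 : p ≤ 0 := by
    have : 0 ≤ (d : ℝ) / ((d : ℝ) - k) := by positivity
    rw [hp]; linarith
  have hEc : (0 : ℝ) ≤ E.card := Nat.cast_nonneg _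
  -- part 0
  have hc0 : (F0.card : ℝ) ≤ lam ^ p * E.card := by
    have hsub : F0 ⊆ E := by
      intro x hx
      rw [hF0, mem_filter] at hx
      obtain ⟨hxF, hx0⟩ := hx
      obtain ⟨h1, _, h3⟩ := hj x hxF
      rw [hx0] at h1 h3
      have h4 : 0 < hits k E x (n x) := by
        have : (0 : ℝ) < hits k E x (n x) := lt_of_le_of_lt (by positivity) h3
        exact_mod_cast this
      unfold hits at h4
      rw [Finset.card_pos] at h4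
      obtain ⟨y, hy⟩ := h4
      rw [mem_filter] at hy
      obtain ⟨hyE, hy1, hy2⟩ := hy
      have h5 : n x ≤ 0 := by
        rw [Nat.zero_mul, pow_zero] at h1
        omega
      have h6 : ∀ i ∈ Finset.univ, 0 ≤ (x i - y i) ^ k :=
        fun i _ => pow_nonneg (sub_nonneg.mpr (hy1 i)) _
      have h7 : ∑ i, (x i - y i) ^ k = 0 :=
        le_antisymm (hy2.le.trans h5) (Finset.sum_nonneg h6)
      rw [Finset.sum_eq_zero_iff_of_nonneg h6] at h7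
      have h8 : x = y := by
        funext i
        have := h7 i (mem_univ i)
        have := pow_eq_zero_iff (by omega : k ≠ 0) |>.mp this
        linarith
      rw [h8]
      exact hyE
    have h1 : (F0.card : ℝ) ≤ E.card := by exact_mod_cast Finset.card_le_card hsub
    have h2 : 1 ≤ lam ^ p := Real.one_le_rpow_of_pos_of_le_one_of_nonpos hlam hlam1 hp0
    calc (F0.card : ℝ) ≤ 1 * E.card := by rw [one_mul]; exact h1
      _ ≤ _ := mul_le_mul_of_nonneg_right h2 hEc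
  -- part 1
  have hQ2 : Q ^ 2 = lam ^ (-((k : ℝ) / (d - k))) := by
    rw [hQdef, ← Real.rpow_natCast, ← Real.rpow_mul hlam.le]
    congr 1
    push_cast
    field_simp
  have hc1 : (F1.card : ℝ) ≤ CW * lam ^ p * E.card := by
    have h1 := hCW lam Q E F1 j hlam hQ0 (fun x hx => (mem_filter.mp hx).2)
    have h2 : (F1.card : ℝ) ≤ CW * Q ^ 2 * E.card * lam⁻¹ := by
      rw [← div_eq_mul_inv, le_div_iff₀ hlam]
      exact h1
    refine h2.trans ?_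
    have h3 : Q ^ 2 * lam⁻¹ ≤ lam ^ p := by
      rw [hQ2, ← Real.rpow_neg_one, ← Real.rpow_add hlam]
      refine Real.rpow_le_rpow_of_exponent_ge hlam hlam1 ?_
      have : -((k : ℝ) / (d - k)) + -1 = -((d : ℝ) / (d - k)) := by field_simp; ring
      rw [this, hp]
      linarith
    calc CW * Q ^ 2 * E.card * lam⁻¹ = CW * (Q ^ 2 * lam⁻¹) * E.card := by ring
      _ ≤ CW * lam ^ p * E.card := by gcongr
  -- part 2
  have hF2F : F2 ⊆ F := (Finset.filter_subset _ _).trans (Finset.filter_subset _ _)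
  let M : ℕ := F2.sup (fun x => ⌊((2 : ℝ) ^ (j x)) ^ (1 / 16 : ℝ)⌋₊)
  let S : Finset ((_ : ℕ) × ℕ) :=
    (Icc 1 M).sigma (fun q => (Icc 1 q).filter (fun a => Nat.Coprime a q))
  let fH : ((_ : ℕ) × ℕ) → (Fin d → ℤ) → ℝ := fun i x =>
    if ((i.1 : ℕ) : ℝ) ≤ ((2 : ℝ) ^ (j x)) ^ (1 / 16 : ℝ) then Hh k Q E i.1 i.2 (j x) x else 0
  let fP : ((_ : ℕ) × ℕ) → (Fin d → ℤ) → ℝ := fun i x =>
    if ((i.1 : ℕ) : ℝ) ≤ ((2 : ℝ) ^ (j x)) ^ (1 / 16 : ℝ) then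
      vq k d Q i.1 (j x) * Pp k E i.1 i.2 (j x) x else 0
  have hsum : ∀ x ∈ F2, ∑ q ∈ Icc 1 ⌊((2 : ℝ) ^ (j x)) ^ (1 / 16 : ℝ)⌋₊,
      ∑ a ∈ (Icc 1 q).filter (fun a => Nat.Coprime a q),
        (Hh k Q E q a (j x) x + vq k d Q q (j x) * Pp k E q a (j x) x) =
      ∑ i ∈ S, fH i x + ∑ i ∈ S, fP i x := by
    intro x hx
    have h1 : Icc 1 ⌊((2 : ℝ) ^ (j x)) ^ (1 / 16 : ℝ)⌋₊ =
        (Icc 1 M).filter (fun q : ℕ => (q : ℝ) ≤ ((2 : ℝ) ^ (j x)) ^ (1 / 16 : ℝ)) := by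
      ext q
      rw [mem_Icc, mem_filter, mem_Icc, Nat.le_floor_iff (by positivity)]
      constructor
      · rintro ⟨h2, h3⟩
        refine ⟨⟨h2, ?_⟩, h3⟩
        exact (Nat.le_floor h3).trans
          (Finset.le_sup (f := fun x => ⌊((2 : ℝ) ^ (j x)) ^ (1 / 16 : ℝ)⌋₊) hx)
      · rintro ⟨⟨h2, _⟩, h3⟩
        exact ⟨h2, h3⟩
    rw [h1, Finset.sum_filter, ← Finset.sum_add_distrib, Finset.sum_sigma]
    refine Finset.sum_congr rfl fun q _ => ?_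
    simp only [fH, fP]
    split_ifs with h
    · rfl
    · simp
  have hcop : ∀ i ∈ S, 1 ≤ i.1 ∧ IsCoprime ((i.2 : ℕ) : ℤ) (i.1 : ℤ) := by
    intro i hi
    rw [Finset.mem_sigma, mem_filter, mem_Icc] at hi
    exact ⟨hi.1.1, Nat.isCoprime_iff_coprime.mpr hi.2.2⟩
  have hSW : ∑ i ∈ S, Ww e Q i.1 ≤ 3 * Q ^ (e + 1) := by
    rw [Finset.sum_sigma]
    refine le_trans (Finset.sum_le_sum fun q hq => ?_) (sumW Q e hQ1 he2 M)
    change ∑ _s ∈ (Icc 1 q).filter (fun a => Nat.Coprime a q), Ww e Q q ≤ _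
    rw [Finset.sum_const, nsmul_eq_mul]
    have h1 : (((Icc 1 q).filter (fun a => Nat.Coprime a q)).card : ℝ) ≤ q := by
      have := Finset.card_filter_le (Icc 1 q) (fun a => Nat.Coprime a q)
      rw [Nat.card_Icc, Nat.add_sub_cancel] at this
      exact_mod_cast this
    exact mul_le_mul_of_nonneg_right h1 (Ww_nonneg e Q hQ0.le q)
  have hHs : ∑ x ∈ F2, (∑ i ∈ S, fH i x) ^ 2 ≤ (3 * CH) ^ 2 * (Q ^ (e + 1)) ^ 2 * E.card := by
    have h1 := mink S F2 fH (fun i => CH * Real.sqrt E.card * Ww e Q i.1)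
      (fun i _ => by have := Ww_nonneg e Q hQ0.le i.1; positivity)
      (fun i hi => hCH Q i.1 i.2 E F2 j hQ0.le (hcop i hi).1 (hcop i hi).2)
    refine h1.trans ?_
    rw [← Finset.mul_sum]
    have h2 : CH * Real.sqrt E.card * ∑ i ∈ S, Ww e Q i.1 ≤
        CH * Real.sqrt E.card * (3 * Q ^ (e + 1)) :=
      mul_le_mul_of_nonneg_left hSW (by positivity)
    have h3 : 0 ≤ CH * Real.sqrt E.card * ∑ i ∈ S, Ww e Q i.1 :=
      mul_nonneg (by positivity) (Finset.sum_nonneg fun i _ => Ww_nonneg e Q hQ0.le i.1)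
    refine (pow_le_pow_left₀ h3 h2 2).trans (le_of_eq ?_)
    have h4 : (CH * Real.sqrt E.card * (3 * Q ^ (e + 1))) ^ 2 =
        (3 * CH) ^ 2 * (Q ^ (e + 1)) ^ 2 * (Real.sqrt E.card) ^ 2 := by ring
    rw [h4, Real.sq_sqrt hEc]
  have hPs : ∑ x ∈ F2, (∑ i ∈ S, fP i x) ^ 2 ≤ (3 * CP) ^ 2 * (Q ^ (e + 1)) ^ 2 * E.card := by
    have h1 := mink S F2 fP (fun i => CP * Real.sqrt E.card * Ww e Q i.1)
      (fun i _ => by have := Ww_nonneg e Q hQ0.le i.1; positivity)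
      (fun i hi => hCP Q i.1 i.2 E F2 j hQ0.le (hcop i hi).1 (hcop i hi).2)
    refine h1.trans ?_
    rw [← Finset.mul_sum]
    have h2 : CP * Real.sqrt E.card * ∑ i ∈ S, Ww e Q i.1 ≤
        CP * Real.sqrt E.card * (3 * Q ^ (e + 1)) :=
      mul_le_mul_of_nonneg_left hSW (by positivity)
    have h3 : 0 ≤ CP * Real.sqrt E.card * ∑ i ∈ S, Ww e Q i.1 :=
      mul_nonneg (by positivity) (Finset.sum_nonneg fun i _ => Ww_nonneg e Q hQ0.le i.1)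
    refine (pow_le_pow_left₀ h3 h2 2).trans (le_of_eq ?_)
    have h4 : (CP * Real.sqrt E.card * (3 * Q ^ (e + 1))) ^ 2 =
        (3 * CP) ^ 2 * (Q ^ (e + 1)) ^ 2 * (Real.sqrt E.card) ^ 2 := by ring
    rw [h4, Real.sq_sqrt hEc]
  have hMs : ∑ x ∈ F2, (Im x) ^ 2 ≤ CM * (Q ^ (e + 1)) ^ 2 * E.card := by
    refine (hCM Q E F2 j hQ1 (fun x hx => hpow x (hF2F hx))).trans ?_
    have h1 : Q ^ (2 - (d : ℝ) / k) ≤ Q ^ (e + 1) := by
      refine Real.rpow_le_rpow_of_exponent_le hQ1 ?_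
      have : 0 ≤ (d : ℝ) * ε1 := by positivity
      rw [he]; linarith
    gcongr
  have hlow : ∀ x ∈ F2, (lam / 2) ^ 2 ≤
      3 * ((Im x) ^ 2 + (∑ i ∈ S, fH i x) ^ 2 + (∑ i ∈ S, fP i x) ^ 2) := by
    intro x hx
    refine le_trans ?_ (add3_sq _ _ _)
    have hx2 := mem_filter.mp hx
    have hxp := mem_filter.mp hx2.1
    obtain ⟨h1, _, h3⟩ := hj x hxp.1
    have h4 := dec hD k d hk hkd Q lam E x (j x) (n x) (by have := hxp.2; omega) hQ1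
      (hpow2 x hxp.1) h1 h3
    rw [hsum x hx] at h4
    have h5 : I1 x < lam / 2 := not_le.mp hx2.2
    have h6 : lam < I1 x + Im x + (∑ i ∈ S, fH i x + ∑ i ∈ S, fP i x) := h4
    exact pow_le_pow_left₀ (by positivity) (by linarith) 2
  have hc2 : (F2.card : ℝ) ≤ 4 * CS * lam ^ p * E.card := by
    have h1 : (F2.card : ℝ) * (lam / 2) ^ 2 ≤ CS * (Q ^ (e + 1)) ^ 2 * E.card := by
      calc (F2.card : ℝ) * (lam / 2) ^ 2 = ∑ x ∈ F2, (lam / 2) ^ 2 := by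
            rw [Finset.sum_const, nsmul_eq_mul]
        _ ≤ ∑ x ∈ F2, 3 * ((Im x) ^ 2 + (∑ i ∈ S, fH i x) ^ 2 + (∑ i ∈ S, fP i x) ^ 2) :=
            Finset.sum_le_sum hlow
        _ = 3 * (∑ x ∈ F2, (Im x) ^ 2 + ∑ x ∈ F2, (∑ i ∈ S, fH i x) ^ 2 +
              ∑ x ∈ F2, (∑ i ∈ S, fP i x) ^ 2) := by
            rw [← Finset.mul_sum, Finset.sum_add_distrib, Finset.sum_add_distrib]
        _ ≤ 3 * (CM * (Q ^ (e + 1)) ^ 2 * E.card + (3 * CH) ^ 2 * (Q ^ (e + 1)) ^ 2 * E.card +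
              (3 * CP) ^ 2 * (Q ^ (e + 1)) ^ 2 * E.card) := by
            linarith
        _ = CS * (Q ^ (e + 1)) ^ 2 * E.card := by rw [hCS]; ring
    have h2 : (F2.card : ℝ) ≤ 4 * (CS * (Q ^ (e + 1)) ^ 2 * E.card) * (lam ^ 2)⁻¹ := by
      rw [← div_eq_mul_inv, le_div_iff₀ (by positivity)]
      nlinarith
    refine h2.trans ?_
    have h3 : (Q ^ (e + 1)) ^ 2 * (lam ^ 2)⁻¹ ≤ lam ^ p := by
      have h4 : (Q ^ (e + 1)) ^ 2 = lam ^ (-((k : ℝ) / (d - k)) * (e + 1)) := by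
        rw [hQdef, ← Real.rpow_mul hlam.le, ← Real.rpow_natCast, ← Real.rpow_mul hlam.le]
        congr 1
        push_cast
        field_simp
      have h5 : (lam ^ 2)⁻¹ = lam ^ (-2 : ℝ) := by
        rw [Real.rpow_neg hlam.le]
        norm_num
      rw [h4, h5, ← Real.rpow_add hlam]
      refine Real.rpow_le_rpow_of_exponent_ge hlam hlam1 ?_
      have h6 : -((k : ℝ) / (d - k)) * (e + 1) + -2 =
          -((d : ℝ) / (d - k)) - k * d * ε1 / (d - k) := by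
        rw [he]
        field_simp
        ring
      rw [h6, hp]
      linarith
    calc 4 * (CS * (Q ^ (e + 1)) ^ 2 * E.card) * (lam ^ 2)⁻¹ =
          4 * CS * ((Q ^ (e + 1)) ^ 2 * (lam ^ 2)⁻¹) * E.card := by ring
      _ ≤ 4 * CS * lam ^ p * E.card := by gcongr
  rw [hcard]
  calc (F0.card : ℝ) + F1.card + F2.card ≤
        lam ^ p * E.card + CW * lam ^ p * E.card + 4 * CS * lam ^ p * E.card := by linarith
    _ = (1 + CW + 4 * CS) * lam ^ p * E.card := by ring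

end Pool.Agent.Helper42.KS.PkC3
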